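import Mathlib

namespace Pool.Agent.H.MP_b57ad3_co

def LL : List (List (ℕ × ℕ)) := [
  [(1,3),(3,14),(4,14),(4,6),(6,14),(7,14),(7,9),(9,14),(10,14),(10,12),(12,14)],
  [(1,3),(3,14),(3,7),(7,14),(3,5),(5,7),(7,9),(9,14),(10,14),(10,12),(12,14)],
  [(1,3),(3,14),(4,14),(4,6),(6,14),(6,10),(10,14),(6,8),(8,10),(10,12),(12,14)],
  [(1,3),(3,14),(4,14),(4,6),(6,14),(7,14),(7,9),(9,14),(9,13),(9,11),(11,13)],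
  [(1,9),(9,14),(1,5),(5,9),(1,3),(3,5),(5,7),(7,9),(10,14),(10,12),(12,14)],
  [(1,3),(3,14),(3,10),(10,14),(3,8),(8,10),(3,7),(3,5),(5,7),(10,12),(12,14)],
  [(1,3),(3,14),(3,7),(7,14),(3,5),(5,7),(7,9),(9,14),(9,13),(9,11),(11,13)],
  [(1,3),(3,14),(3,10),(10,14),(3,5),(5,10),(6,10),(6,8),(8,10),(10,12),(12,14)],
  [(1,3),(3,14),(4,14),(4,12),(12,14),(4,8),(8,12),(4,6),(6,8),(8,10),(10,12)],
  [(1,3),(3,14),(4,14),(4,6),(6,14),(6,13),(6,11),(11,13),(6,10),(6,8),(8,10)],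
  [(1,3),(3,14),(4,14),(4,6),(6,14),(6,13),(6,8),(8,13),(9,13),(9,11),(11,13)],
  [(1,9),(9,14),(2,9),(2,4),(4,9),(5,9),(5,7),(7,9),(10,14),(10,12),(12,14)],
  [(1,9),(9,14),(1,8),(1,6),(6,8),(1,5),(1,3),(3,5),(10,14),(10,12),(12,14)],
  [(1,9),(9,14),(1,5),(5,9),(1,3),(3,5),(5,7),(7,9),(9,13),(9,11),(11,13)],
  [(1,12),(12,14),(1,8),(8,12),(1,3),(3,8),(3,7),(3,5),(5,7),(8,10),(10,12)],
  [(1,3),(3,14),(3,10),(10,14),(3,8),(8,10),(4,8),(4,6),(6,8),(10,12),(12,14)],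
  [(1,3),(3,14),(3,13),(3,11),(11,13),(3,10),(3,8),(8,10),(3,7),(3,5),(5,7)],
  [(1,3),(3,14),(3,13),(3,8),(8,13),(3,7),(3,5),(5,7),(9,13),(9,11),(11,13)],
  [(1,12),(12,14),(1,5),(5,12),(1,3),(3,5),(5,10),(10,12),(6,10),(6,8),(8,10)],
  [(1,3),(3,14),(3,13),(3,11),(11,13),(3,10),(3,5),(5,10),(6,10),(6,8),(8,10)],
  [(1,3),(3,14),(3,10),(10,14),(3,5),(5,10),(5,9),(5,7),(7,9),(10,12),(12,14)],
  [(1,3),(3,14),(3,13),(3,8),(8,13),(4,8),(4,6),(6,8),(8,12),(8,10),(10,12)],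
  [(1,3),(3,14),(4,14),(4,12),(12,14),(5,12),(5,7),(7,12),(8,12),(8,10),(10,12)],
  [(1,3),(3,14),(4,14),(4,12),(12,14),(4,11),(4,9),(9,11),(4,8),(4,6),(6,8)],
  [(1,3),(3,14),(3,13),(3,5),(5,13),(6,13),(6,11),(11,13),(6,10),(6,8),(8,10)],
  [(1,3),(3,14),(4,14),(4,6),(6,14),(6,13),(6,11),(11,13),(7,11),(7,9),(9,11)],
  [(1,3),(3,14),(3,13),(3,5),(5,13),(6,13),(6,8),(8,13),(9,13),(9,11),(11,13)],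
  [(1,3),(3,14),(4,14),(4,6),(6,14),(6,13),(6,8),(8,13),(8,12),(8,10),(10,12)],
  [(1,9),(9,14),(2,9),(2,4),(4,9),(4,8),(4,6),(6,8),(10,14),(10,12),(12,14)],
  [(1,9),(9,14),(2,9),(2,4),(4,9),(5,9),(5,7),(7,9),(9,13),(9,11),(11,13)],
  [(1,9),(9,14),(1,8),(1,6),(6,8),(2,6),(2,4),(4,6),(10,14),(10,12),(12,14)],
  [(1,9),(9,14),(1,8),(1,6),(6,8),(1,5),(1,3),(3,5),(9,13),(9,11),(11,13)],
  [(1,12),(12,14),(2,12),(2,7),(7,12),(3,7),(3,5),(5,7),(8,12),(8,10),(10,12)],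
  [(1,12),(12,14),(1,11),(1,9),(9,11),(1,8),(1,3),(3,8),(3,7),(3,5),(5,7)],
  [(1,12),(12,14),(1,8),(8,12),(1,3),(3,8),(4,8),(4,6),(6,8),(8,10),(10,12)],
  [(1,3),(3,14),(4,14),(4,9),(9,14),(4,8),(4,6),(6,8),(10,14),(10,12),(12,14)],
  [(1,3),(3,14),(3,13),(3,11),(11,13),(3,10),(3,8),(8,10),(4,8),(4,6),(6,8)],
  [(1,3),(3,14),(3,13),(3,11),(11,13),(3,7),(7,11),(3,5),(5,7),(7,9),(9,11)],
  [(1,3),(3,14),(3,13),(3,8),(8,13),(4,8),(4,6),(6,8),(9,13),(9,11),(11,13)],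
  [(1,3),(3,14),(3,13),(3,8),(8,13),(3,7),(3,5),(5,7),(8,12),(8,10),(10,12)],
  [(1,12),(12,14),(2,12),(2,4),(4,12),(5,12),(5,10),(10,12),(6,10),(6,8),(8,10)],
  [(1,12),(12,14),(1,11),(1,6),(6,11),(1,5),(1,3),(3,5),(6,10),(6,8),(8,10)],
  [(1,12),(12,14),(1,5),(5,12),(1,3),(3,5),(5,10),(10,12),(5,9),(5,7),(7,9)],
  [(1,3),(3,14),(3,13),(3,11),(11,13),(4,11),(4,6),(6,11),(6,10),(6,8),(8,10)],
  [(1,3),(3,14),(3,13),(3,11),(11,13),(3,10),(3,5),(5,10),(5,9),(5,7),(7,9)],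
  [(1,3),(3,14),(4,14),(4,9),(9,14),(5,9),(5,7),(7,9),(10,14),(10,12),(12,14)],
  [(1,3),(3,14),(3,13),(3,5),(5,13),(5,12),(5,7),(7,12),(8,12),(8,10),(10,12)],
  [(1,3),(3,14),(4,14),(4,12),(12,14),(5,12),(5,7),(7,12),(7,11),(7,9),(9,11)],
  [(1,3),(3,14),(3,13),(3,11),(11,13),(4,11),(4,9),(9,11),(4,8),(4,6),(6,8)],
  [(1,3),(3,14),(4,14),(4,12),(12,14),(4,11),(4,9),(9,11),(5,9),(5,7),(7,9)],
  [(1,3),(3,14),(3,13),(3,5),(5,13),(5,12),(5,10),(10,12),(6,10),(6,8),(8,10)],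
  [(1,3),(3,14),(3,13),(3,5),(5,13),(6,13),(6,11),(11,13),(7,11),(7,9),(9,11)],
  [(1,3),(3,14),(4,14),(4,6),(6,14),(7,14),(7,12),(12,14),(7,11),(7,9),(9,11)],
  [(1,3),(3,14),(3,13),(3,5),(5,13),(5,9),(9,13),(5,7),(7,9),(9,11),(11,13)],
  [(1,3),(3,14),(3,13),(3,5),(5,13),(6,13),(6,8),(8,13),(8,12),(8,10),(10,12)],
  [(1,3),(3,14),(4,14),(4,6),(6,14),(7,14),(7,12),(12,14),(8,12),(8,10),(10,12)],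
  [(1,9),(9,14),(1,8),(1,3),(3,8),(4,8),(4,6),(6,8),(10,14),(10,12),(12,14)],
  [(1,9),(9,14),(2,9),(2,4),(4,9),(4,8),(4,6),(6,8),(9,13),(9,11),(11,13)],
  [(1,9),(9,14),(2,9),(2,7),(7,9),(2,6),(2,4),(4,6),(10,14),(10,12),(12,14)],
  [(1,9),(9,14),(1,8),(1,6),(6,8),(2,6),(2,4),(4,6),(9,13),(9,11),(11,13)],
  [(1,12),(12,14),(2,12),(2,7),(7,12),(2,6),(2,4),(4,6),(8,12),(8,10),(10,12)],
  [(1,12),(12,14),(2,12),(2,7),(7,12),(3,7),(3,5),(5,7),(7,11),(7,9),(9,11)],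
  [(1,12),(12,14),(1,11),(1,9),(9,11),(2,9),(2,7),(7,9),(3,7),(3,5),(5,7)],
  [(1,12),(12,14),(1,11),(1,9),(9,11),(1,8),(1,3),(3,8),(4,8),(4,6),(6,8)],
  [(1,12),(12,14),(2,12),(2,4),(4,12),(4,8),(8,12),(4,6),(6,8),(8,10),(10,12)],
  [(1,3),(3,14),(4,14),(4,9),(9,14),(4,8),(4,6),(6,8),(9,13),(9,11),(11,13)],
  [(1,3),(3,14),(3,13),(3,11),(11,13),(4,11),(4,6),(6,11),(7,11),(7,9),(9,11)],
  [(1,3),(3,14),(3,7),(7,14),(3,5),(5,7),(7,12),(12,14),(7,11),(7,9),(9,11)],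
  [(1,3),(3,14),(3,7),(7,14),(3,5),(5,7),(7,12),(12,14),(8,12),(8,10),(10,12)],
  [(1,12),(12,14),(2,12),(2,4),(4,12),(4,11),(4,6),(6,11),(6,10),(6,8),(8,10)],
  [(1,12),(12,14),(2,12),(2,4),(4,12),(5,12),(5,10),(10,12),(5,9),(5,7),(7,9)],
  [(1,12),(12,14),(1,11),(1,6),(6,11),(2,6),(2,4),(4,6),(6,10),(6,8),(8,10)],
  [(1,12),(12,14),(1,11),(1,6),(6,11),(1,5),(1,3),(3,5),(7,11),(7,9),(9,11)],
  [(1,12),(12,14),(1,11),(1,9),(9,11),(1,5),(5,9),(1,3),(3,5),(5,7),(7,9)],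
  [(1,3),(3,14),(4,14),(4,12),(12,14),(4,11),(4,6),(6,11),(6,10),(6,8),(8,10)],
  [(1,3),(3,14),(3,13),(3,11),(11,13),(4,11),(4,9),(9,11),(5,9),(5,7),(7,9)],
  [(1,3),(3,14),(4,14),(4,9),(9,14),(5,9),(5,7),(7,9),(9,13),(9,11),(11,13)],
  [(1,3),(3,14),(3,13),(3,5),(5,13),(5,12),(5,7),(7,12),(7,11),(7,9),(9,11)],
  [(1,3),(3,14),(4,14),(4,12),(12,14),(4,11),(4,6),(6,11),(7,11),(7,9),(9,11)],
  [(1,3),(3,14),(4,14),(4,12),(12,14),(5,12),(5,10),(10,12),(5,9),(5,7),(7,9)],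
  [(1,3),(3,14),(4,14),(4,12),(12,14),(5,12),(5,10),(10,12),(6,10),(6,8),(8,10)],
  [(1,3),(3,14),(3,13),(3,5),(5,13),(5,12),(5,10),(10,12),(5,9),(5,7),(7,9)],
  [(1,9),(9,14),(1,8),(1,3),(3,8),(3,7),(3,5),(5,7),(10,14),(10,12),(12,14)],
  [(1,9),(9,14),(1,8),(1,3),(3,8),(4,8),(4,6),(6,8),(9,13),(9,11),(11,13)],
  [(1,9),(9,14),(2,9),(2,7),(7,9),(3,7),(3,5),(5,7),(10,14),(10,12),(12,14)],
  [(1,9),(9,14),(2,9),(2,7),(7,9),(2,6),(2,4),(4,6),(9,13),(9,11),(11,13)],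
  [(1,12),(12,14),(1,8),(8,12),(1,6),(6,8),(2,6),(2,4),(4,6),(8,10),(10,12)],
  [(1,12),(12,14),(2,12),(2,7),(7,12),(2,6),(2,4),(4,6),(7,11),(7,9),(9,11)],
  [(1,12),(12,14),(1,11),(1,3),(3,11),(3,7),(7,11),(3,5),(5,7),(7,9),(9,11)],
  [(1,12),(12,14),(2,12),(2,10),(10,12),(2,9),(2,7),(7,9),(3,7),(3,5),(5,7)],
  [(1,12),(12,14),(1,11),(1,9),(9,11),(2,9),(2,7),(7,9),(2,6),(2,4),(4,6)],
  [(1,12),(12,14),(1,11),(1,9),(9,11),(2,9),(2,4),(4,9),(4,8),(4,6),(6,8)],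
  [(1,12),(12,14),(2,12),(2,10),(10,12),(2,6),(6,10),(2,4),(4,6),(6,8),(8,10)],
  [(1,12),(12,14),(2,12),(2,4),(4,12),(5,12),(5,7),(7,12),(8,12),(8,10),(10,12)],
  [(1,12),(12,14),(2,12),(2,4),(4,12),(4,11),(4,9),(9,11),(4,8),(4,6),(6,8)],
  [(1,12),(12,14),(1,5),(5,12),(1,3),(3,5),(5,7),(7,12),(7,11),(7,9),(9,11)],
  [(1,12),(12,14),(1,5),(5,12),(1,3),(3,5),(5,7),(7,12),(8,12),(8,10),(10,12)],
  [(1,12),(12,14),(1,11),(1,3),(3,11),(4,11),(4,6),(6,11),(6,10),(6,8),(8,10)],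
  [(1,12),(12,14),(2,12),(2,4),(4,12),(4,11),(4,6),(6,11),(7,11),(7,9),(9,11)],
  [(1,12),(12,14),(2,12),(2,4),(4,12),(4,11),(4,9),(9,11),(5,9),(5,7),(7,9)],
  [(1,12),(12,14),(1,11),(1,6),(6,11),(2,6),(2,4),(4,6),(7,11),(7,9),(9,11)],
  [(1,12),(12,14),(1,11),(1,9),(9,11),(2,9),(2,4),(4,9),(5,9),(5,7),(7,9)],
  [(1,12),(12,14),(1,11),(1,9),(9,11),(1,8),(1,6),(6,8),(1,5),(1,3),(3,5)],
  [(1,9),(9,14),(1,8),(1,3),(3,8),(3,7),(3,5),(5,7),(9,13),(9,11),(11,13)],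
  [(1,9),(9,14),(2,9),(2,7),(7,9),(3,7),(3,5),(5,7),(9,13),(9,11),(11,13)],
  [(1,12),(12,14),(1,8),(8,12),(1,6),(6,8),(1,5),(1,3),(3,5),(8,10),(10,12)],
  [(1,6),(6,14),(2,6),(2,4),(4,6),(6,10),(10,14),(6,8),(8,10),(10,12),(12,14)],
  [(1,12),(12,14),(1,11),(1,9),(9,11),(1,8),(1,6),(6,8),(2,6),(2,4),(4,6)],
  [(1,12),(12,14),(1,11),(1,3),(3,11),(4,11),(4,6),(6,11),(7,11),(7,9),(9,11)],
  [(1,12),(12,14),(1,11),(1,3),(3,11),(3,10),(3,8),(8,10),(3,7),(3,5),(5,7)],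
  [(1,12),(12,14),(2,12),(2,10),(10,12),(2,9),(2,7),(7,9),(2,6),(2,4),(4,6)],
  [(1,12),(12,14),(2,12),(2,10),(10,12),(3,10),(3,8),(8,10),(3,7),(3,5),(5,7)],
  [(1,12),(12,14),(2,12),(2,10),(10,12),(2,9),(2,4),(4,9),(4,8),(4,6),(6,8)],
  [(1,12),(12,14),(2,12),(2,10),(10,12),(3,10),(3,5),(5,10),(6,10),(6,8),(8,10)],
  [(1,12),(12,14),(2,12),(2,4),(4,12),(5,12),(5,7),(7,12),(7,11),(7,9),(9,11)],
  [(1,12),(12,14),(1,11),(1,3),(3,11),(4,11),(4,9),(9,11),(4,8),(4,6),(6,8)],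
  [(1,12),(12,14),(1,11),(1,3),(3,11),(3,10),(3,5),(5,10),(6,10),(6,8),(8,10)],
  [(1,12),(12,14),(1,11),(1,3),(3,11),(4,11),(4,9),(9,11),(5,9),(5,7),(7,9)],
  [(1,12),(12,14),(2,12),(2,10),(10,12),(2,9),(2,4),(4,9),(5,9),(5,7),(7,9)],
  [(1,6),(6,14),(1,5),(1,3),(3,5),(6,10),(10,14),(6,8),(8,10),(10,12),(12,14)],
  [(1,6),(6,14),(2,6),(2,4),(4,6),(7,14),(7,9),(9,14),(10,14),(10,12),(12,14)],
  [(1,6),(6,14),(2,6),(2,4),(4,6),(6,13),(6,11),(11,13),(6,10),(6,8),(8,10)],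
  [(1,12),(12,14),(1,11),(1,3),(3,11),(3,10),(3,8),(8,10),(4,8),(4,6),(6,8)],
  [(1,12),(12,14),(2,12),(2,10),(10,12),(3,10),(3,8),(8,10),(4,8),(4,6),(6,8)],
  [(1,12),(12,14),(2,12),(2,10),(10,12),(3,10),(3,5),(5,10),(5,9),(5,7),(7,9)],
  [(1,12),(12,14),(1,11),(1,3),(3,11),(3,10),(3,5),(5,10),(5,9),(5,7),(7,9)],
  [(1,6),(6,14),(1,5),(1,3),(3,5),(7,14),(7,9),(9,14),(10,14),(10,12),(12,14)],
  [(1,6),(6,14),(1,5),(1,3),(3,5),(6,13),(6,11),(11,13),(6,10),(6,8),(8,10)],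
  [(1,6),(6,14),(2,6),(2,4),(4,6),(7,14),(7,9),(9,14),(9,13),(9,11),(11,13)],
  [(1,6),(6,14),(2,6),(2,4),(4,6),(6,13),(6,11),(11,13),(7,11),(7,9),(9,11)],
  [(1,6),(6,14),(1,5),(1,3),(3,5),(7,14),(7,9),(9,14),(9,13),(9,11),(11,13)],
  [(1,6),(6,14),(1,5),(1,3),(3,5),(6,13),(6,11),(11,13),(7,11),(7,9),(9,11)],
  [(1,6),(6,14),(2,6),(2,4),(4,6),(6,13),(6,8),(8,13),(9,13),(9,11),(11,13)],
  [(1,6),(6,14),(2,6),(2,4),(4,6),(7,14),(7,12),(12,14),(7,11),(7,9),(9,11)],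
  [(1,6),(6,14),(1,5),(1,3),(3,5),(6,13),(6,8),(8,13),(9,13),(9,11),(11,13)],
  [(1,6),(6,14),(1,5),(1,3),(3,5),(7,14),(7,12),(12,14),(7,11),(7,9),(9,11)],
  [(1,6),(6,14),(2,6),(2,4),(4,6),(6,13),(6,8),(8,13),(8,12),(8,10),(10,12)],
  [(1,6),(6,14),(2,6),(2,4),(4,6),(7,14),(7,12),(12,14),(8,12),(8,10),(10,12)],
  [(1,6),(6,14),(1,5),(1,3),(3,5),(6,13),(6,8),(8,13),(8,12),(8,10),(10,12)],
  [(1,6),(6,14),(1,5),(1,3),(3,5),(7,14),(7,12),(12,14),(8,12),(8,10),(10,12)]]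

def par : List (ℕ × ℕ × ℕ × ℕ × ℕ × ℕ × ℕ) := [
  (0,0,0,0,0,0,0),
  (0,3,4,5,6,7,14),
  (0,6,7,8,9,10,14),
  (0,9,10,11,12,13,14),
  (1,1,3,5,7,9,14),
  (1,3,7,8,9,10,14),
  (1,9,10,11,12,13,14),
  (2,3,4,5,6,10,14),
  (2,4,6,8,10,12,14),
  (2,6,10,11,12,13,14),
  (3,6,7,8,9,13,14),
  (4,1,2,3,4,5,9),
  (4,1,5,6,7,8,9),
  (4,9,10,11,12,13,14),
  (5,1,3,8,10,12,14),
  (5,3,4,5,6,7,8),
  (5,3,10,11,12,13,14),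
  (6,3,7,8,9,13,14),
  (7,1,3,5,10,12,14),
  (7,3,10,11,12,13,14),
  (7,5,6,7,8,9,10),
  (8,3,4,8,12,13,14),
  (8,4,5,6,7,8,12),
  (8,4,8,9,10,11,12),
  (9,3,4,5,6,13,14),
  (9,6,7,8,9,10,11),
  (10,3,4,5,6,13,14),
  (10,8,9,10,11,12,13),
  (11,4,5,6,7,8,9),
  (11,9,10,11,12,13,14),
  (12,1,2,3,4,5,6),
  (12,9,10,11,12,13,14),
  (14,1,2,3,7,8,12),
  (14,1,8,9,10,11,12),
  (14,3,4,5,6,7,8),
  (15,3,4,8,9,10,14),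
  (15,3,10,11,12,13,14),
  (16,3,7,8,9,10,11),
  (17,3,4,5,6,7,8),
  (17,8,9,10,11,12,13),
  (18,1,2,3,4,5,12),
  (18,1,5,6,10,11,12),
  (18,5,6,7,8,9,10),
  (19,3,4,5,6,10,11),
  (19,5,6,7,8,9,10),
  (20,3,4,5,9,10,14),
  (22,3,4,5,12,13,14),
  (22,7,8,9,10,11,12),
  (23,3,4,11,12,13,14),
  (23,4,5,6,7,8,9),
  (24,5,6,10,11,12,13),
  (24,6,7,8,9,10,11),
  (25,6,7,11,12,13,14),
  (26,5,6,7,8,9,13),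
  (26,8,9,10,11,12,13),
  (27,6,7,8,12,13,14),
  (28,1,2,3,4,8,9),
  (28,9,10,11,12,13,14),
  (30,1,2,6,7,8,9),
  (30,9,10,11,12,13,14),
  (32,2,3,4,5,6,7),
  (32,7,8,9,10,11,12),
  (33,1,2,3,7,8,9),
  (33,3,4,5,6,7,8),
  (34,1,2,3,4,8,12),
  (35,9,10,11,12,13,14),
  (37,3,4,5,6,7,11),
  (37,3,7,11,12,13,14),
  (39,3,7,8,12,13,14),
  (40,4,5,6,10,11,12),
  (40,5,6,7,8,9,10),
  (41,1,2,3,4,5,6),
  (41,6,7,8,9,10,11),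
  (42,1,5,9,10,11,12),
  (43,3,4,11,12,13,14),
  (44,3,4,5,9,10,11),
  (45,9,10,11,12,13,14),
  (46,7,8,9,10,11,12),
  (47,4,5,6,7,11,12),
  (49,4,5,9,10,11,12),
  (50,3,4,5,12,13,14),
  (50,5,6,7,8,9,10),
  (56,3,4,5,6,7,8),
  (56,9,10,11,12,13,14),
  (58,2,3,4,5,6,7),
  (58,9,10,11,12,13,14),
  (60,1,2,6,7,8,12),
  (60,7,8,9,10,11,12),
  (61,1,2,3,7,11,12),
  (62,1,2,9,10,11,12),
  (62,2,3,4,5,6,7),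
  (63,1,2,3,4,8,9),
  (64,2,4,6,8,10,12),
  (64,4,5,6,7,8,12),
  (64,4,8,9,10,11,12),
  (67,1,3,5,7,12,14),
  (68,1,3,5,7,12,14),
  (69,1,2,3,4,11,12),
  (69,6,7,8,9,10,11),
  (70,4,5,9,10,11,12),
  (71,6,7,8,9,10,11),
  (73,1,2,3,4,5,9),
  (73,1,5,6,7,8,9),
  (82,9,10,11,12,13,14),
  (84,9,10,11,12,13,14),
  (86,1,2,3,4,5,6),
  (86,1,6,8,10,12,14),
  (86,1,8,9,10,11,12),
  (88,3,4,5,6,7,11),
  (88,3,7,8,9,10,11),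
  (89,2,3,4,5,6,7),
  (89,2,3,7,8,9,10),
  (91,1,2,9,10,11,12),
  (92,2,3,4,5,6,10),
  (93,7,8,9,10,11,12),
  (94,1,2,3,4,11,12),
  (97,3,4,5,6,10,11),
  (99,1,2,3,4,11,12),
  (101,1,2,9,10,11,12),
  (105,1,6,8,10,12,14),
  (106,6,7,8,9,10,14),
  (106,6,10,11,12,13,14),
  (109,3,4,5,6,7,8),
  (111,3,4,5,6,7,8),
  (113,5,6,7,8,9,10),
  (116,5,6,7,8,9,10),
  (119,6,7,8,9,10,14),
  (119,6,10,11,12,13,14),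
  (120,9,10,11,12,13,14),
  (121,6,7,8,9,10,11),
  (126,9,10,11,12,13,14),
  (127,6,7,8,9,10,11),
  (128,6,7,8,9,13,14),
  (129,6,7,11,12,13,14),
  (130,6,7,8,9,13,14),
  (131,6,7,11,12,13,14),
  (132,8,9,10,11,12,13),
  (133,7,8,9,10,11,12),
  (134,8,9,10,11,12,13),
  (135,7,8,9,10,11,12)]

end Pool.Agent.H.MP_b57ad3_co
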